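import Pool.Agent.Q164.Newt3

/-!
No non-constant `R = a(1 + P/(QP + P'))` with `Q ≠ 0` shares `a ≠ 0` with `R'` in the plane.
-/

namespace Pool.Agent.Results.MP_db5e86_an.NoSharing

open Polynomial

/-- The denominator `QP + P'`. -/
noncomputable def den (P Q : ℂ[X]) : ℂ[X] := Q * P + derivative P

/-- The rational function `R = a(1 + P/(QP + P'))` as a function off the zeros of the denominator
(which are exactly the poles of `R` and of `R'` if `P` has only simple zeros). -/
noncomputable def R (a : ℂ) (P Q : ℂ[X]) (z : ℂ) : ℂ := a * (1 + P.eval z / (den P Q).eval z)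

/-- `R` and `R'` share the value `a` in the plane. -/
def SharesInPlane (a : ℂ) (P Q : ℂ[X]) : Prop :=
  ∀ z : ℂ, (den P Q).eval z ≠ 0 → (R a P Q z = a ↔ deriv (R a P Q) z = a)

/-- `R` is a constant function. -/
def IsConst (a : ℂ) (P Q : ℂ[X]) : Prop := ∃ c : ℂ, ∀ z : ℂ, (den P Q).eval z ≠ 0 → R a P Q z = c

theorem deriv_R (a : ℂ) (P Q : ℂ[X]) {z : ℂ} (hz : (den P Q).eval z ≠ 0) :
    deriv (R a P Q) z = a * (((derivative P).eval z * (den P Q).eval z -
      P.eval z * (derivative (den P Q)).eval z) / (den P Q).eval z ^ 2) := by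
  have h := (((P.hasDerivAt z).div ((den P Q).hasDerivAt z) hz).const_add 1).const_mul a
  exact h.deriv

theorem den_eval (P Q : ℂ[X]) (z : ℂ) :
    (den P Q).eval z = Q.eval z * P.eval z + (derivative P).eval z := by
  rw [den, eval_add, eval_mul]

/-- If `(Q D + D')(z) = 0` and `D(z) ≠ 0` then `R'(z) = a`. -/
theorem deriv_eq_of_root {a : ℂ} {P Q : ℂ[X]} {z : ℂ} (hz : (den P Q).eval z ≠ 0)
    (h2 : (Q * den P Q + derivative (den P Q)).eval z = 0) : deriv (R a P Q) z = a := by
  rw [deriv_R a P Q hz]
  rw [eval_add, eval_mul] at h2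
  have h3 : (derivative P).eval z * (den P Q).eval z -
      P.eval z * (derivative (den P Q)).eval z = (den P Q).eval z ^ 2 := by
    have := den_eval P Q z
    linear_combination (-(P.eval z)) * h2 - (den P Q).eval z * this
  rw [h3, div_self (pow_ne_zero 2 hz), mul_one]

theorem R_eq_iff {a : ℂ} (ha : a ≠ 0) {P Q : ℂ[X]} {z : ℂ} (hz : (den P Q).eval z ≠ 0) :
    R a P Q z = a ↔ P.eval z = 0 := by
  rw [R]
  constructor
  · intro h
    have h1 : a * (P.eval z / (den P Q).eval z) = 0 := by linear_combination h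
    rcases mul_eq_zero.1 h1 with h2 | h2
    · exact absurd h2 ha
    · exact (div_eq_zero_iff.1 h2).resolve_right hz
  · intro h
    rw [h, zero_div, add_zero, mul_one]

/-- A polynomial `Q² + Q'` with `Q` nonconstant has a zero that is not a zero of `Q`. -/
theorem exists_root_riccati {Q : ℂ[X]} (hQ : Q.natDegree ≠ 0) :
    ∃ z : ℂ, (Q ^ 2 + derivative Q).eval z = 0 ∧ Q.eval z ≠ 0 := by
  by_contra hcon
  push Not at hcon
  have hQ0 : Q ≠ 0 := by
    rintro rfl
    exact hQ natDegree_zero
  have hlt := natDegree_derivative_lt hQ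
  have hdeg : (Q ^ 2 + derivative Q).natDegree = 2 * Q.natDegree := by
    rw [natDegree_add_eq_left_of_natDegree_lt, natDegree_pow]
    rw [natDegree_pow]
    omega
  set S := Q ^ 2 + derivative Q with hS
  have hS0 : S ≠ 0 := by
    intro h
    rw [h, natDegree_zero] at hdeg
    omega
  have hQ'0 : derivative Q ≠ 0 := fun h => hQ (derivative_eq_zero.1 h)
  have hle : S.roots ≤ Q.roots := by
    rw [Multiset.le_iff_count]
    intro b
    rw [count_roots, count_roots]
    by_contra hlt'
    push Not at hlt'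
    have hroot : S.eval b = 0 := by
      have : 0 < S.rootMultiplicity b := by omega
      exact (rootMultiplicity_pos hS0).1 this
    have hQb := hcon b hroot
    set m := Q.rootMultiplicity b with hm
    have hm1 : 1 ≤ m := (rootMultiplicity_pos hQ0).2 hQb
    have h1 : (X - C b) ^ (m + 1) ∣ S :=
      (pow_dvd_pow _ (by omega)).trans (pow_rootMultiplicity_dvd S b)
    have h2 : (X - C b) ^ (m + 1) ∣ Q ^ 2 := by
      have h3 : (X - C b) ^ m ∣ Q := pow_rootMultiplicity_dvd Q b
      have h4 : ((X - C b) ^ m) ^ 2 ∣ Q ^ 2 := pow_dvd_pow_of_dvd h3 2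
      rw [← pow_mul] at h4
      exact (pow_dvd_pow _ (by omega)).trans h4
    have h5 : (X - C b) ^ (m + 1) ∣ derivative Q := by
      have : derivative Q = S - Q ^ 2 := by rw [hS]; ring
      rw [this]
      exact dvd_sub h1 h2
    have h6 := (le_rootMultiplicity_iff hQ'0).2 h5
    rw [derivative_rootMultiplicity_of_root hQb] at h6
    omega
  have h1 := Multiset.card_le_card hle
  rw [IsAlgClosed.card_roots_eq_natDegree, hdeg] at h1
  have h2 := Q.card_roots'
  omega

/-- **Main theorem.** There are no `a ≠ 0`, polynomial `P` with only simple zeros and polynomial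
`Q ≠ 0` such that `R = a(1 + P/(QP+P'))` is non-constant and `R`, `R'` share `a` in the plane. -/
theorem result : ¬ ∃ (a : ℂ) (P Q : ℂ[X]), a ≠ 0 ∧
    (∀ z : ℂ, P.eval z = 0 → (derivative P).eval z ≠ 0) ∧ Q ≠ 0 ∧ ¬ IsConst a P Q ∧
    SharesInPlane a P Q := by
  rintro ⟨a, P, Q, ha, hs, hQ, hnc, hsh⟩
  by_cases hP : P.natDegree = 0
  · -- constant `P`
    obtain ⟨p, rfl⟩ := natDegree_eq_zero.1 hP
    have hp : p ≠ 0 := by
      rintro rfl
      have := hs 0 (by simp)
      simp at this
    have hden : den (C p) Q = Q * C p := by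
      rw [den, derivative_C, add_zero]
    have hQd : Q.natDegree ≠ 0 := by
      intro h
      obtain ⟨q, rfl⟩ := natDegree_eq_zero.1 h
      apply hnc
      refine ⟨a * (1 + p / (q * p)), fun z _ => ?_⟩
      rw [R, hden]
      simp
    obtain ⟨z, hz1, hz2⟩ := exists_root_riccati hQd
    have hdz : (den (C p) Q).eval z ≠ 0 := by
      rw [hden, eval_mul, eval_C]
      exact mul_ne_zero hz2 hp
    have h2 : (Q * den (C p) Q + derivative (den (C p) Q)).eval z = 0 := by
      rw [hden, derivative_mul, derivative_C, mul_zero, add_zero]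
      rw [eval_add, eval_pow] at hz1
      simp only [eval_add, eval_mul, eval_C]
      linear_combination p * hz1
    have h3 := (hsh z hdz).2 (deriv_eq_of_root hdz h2)
    rw [R_eq_iff ha hdz, eval_C] at h3
    exact hp h3
  · apply Pool.Agent.Q164.Newt.core (Nat.one_le_iff_ne_zero.2 hP) hs hQ
    intro z hz
    by_cases hdz : (den P Q).eval z = 0
    · right
      exact hdz
    · left
      have h3 := (hsh z hdz).2 (deriv_eq_of_root hdz hz)
      exact (R_eq_iff ha hdz).1 h3

end Pool.Agent.Results.MP_db5e86_an.NoSharing
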